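import Pool.Agent.R550.DS.Red

/-!
# Dual Separator for Two Terminals is W[1]-hard
-/

namespace Pool.Agent.Results.MP_959b39_lc.TwoTerminalsW1Hard

open Pool.Agent.NPC Pool.Agent.H557R2.Fpt Pool.Agent.R550.DS

/-- Dual Separator for Two Terminals, parameterized by the size `k` of the separator, is
`W[1]`-hard. -/
theorem result : W1Hard dualSepTwo := w1Hard

end Pool.Agent.Results.MP_959b39_lc.TwoTerminalsW1Hard
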